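import Pool.Agent.H.MP_418eb4_lc.Alg

namespace Pool.Agent.Results.MP_aec1d5_lc.Yes
open Classical Encodable Pool.Agent.Lib.PR Pool.Agent.H.MP_418eb4_lc

/-- two unary symbols a = false, b = true and the single law a(b(x)) = b(b(y)) -/
def L : Set (Tm Empty Bool ℕ × Tm Empty Bool ℕ) := {((.inl 0, [false, true]), (.inl 1, [true, true]))}

abbrev T := Tm Empty Bool (Fin 1)

/-- every algebra presented on one generator has the ascending chain condition on congruences -/
def ACC : Prop := ∀ e, ¬ ∃ θ : ℕ → Quot (Con (X := Fin 1) L (W e)) → Quot (Con (X := Fin 1) L (W e)) → Prop,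
  (∀ k, Equivalence (θ k) ∧ ∀ f s t, θ k (.mk _ s) (.mk _ t) → θ k (.mk _ (op f s)) (.mk _ (op f t))) ∧ StrictMono θ

def act : Bool → Option (ℕ × Bool) → Option (ℕ × Bool)
  | false, some (i, false) => some (i + 1, false)
  | true, some (i, false) => some (i, true)
  | _, _ => none

def val (t : T) : Option (ℕ × Bool) := t.2.foldr act (some (0, false))

def cut (k : ℕ) : Option (ℕ × Bool) → Option (ℕ × Bool)
  | some (i, true) => if i < k then none else some (i, true)
  | m => m

def ap (w : List Bool) (t : T) : T := (t.1, w ++ t.2)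

def x : T := (.inl 0, [])

theorem ap_x (t : T) : ap t.2 x = t := by
  obtain ⟨_ | ⟨⟨⟩⟩, l⟩ := t
  exact Prod.ext (congrArg Sum.inl (Subsingleton.elim ..)) (List.append_nil _)

variable {A : Set ℕ}

theorem cap {s t : T} (h : Con L A s t) (w) : Con L A (ap w s) (ap w t) := by
  induction w with
  | nil => exact h
  | cons f w ih => exact ih.op f

theorem zero (u : List Bool) (h : u ≠ []) (y : T) : Con L A (ap u (op true y)) (ap [true, true] x) := by
  have l : ∀ y z : T, Con L A (ap [false, true] y) (ap [true, true] z) := fun y z =>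
    Con.law (fun n => if n = 0 then y else z) (show _ ∈ L from rfl)
  have k : ∀ f (y : T), Con L A (ap [f, true] y) (ap [true, true] x) := fun f y => by
    cases f
    exacts [l _ _, (l y y).symm.trans (l _ _)]
  induction u with
  | nil => exact (h rfl).elim
  | cons f u ih =>
    by_cases e : u = []
    · subst e; exact k f y
    · exact ((ih e).op f).trans (k f (op true x))

theorem reps (A) : ∃ R : List T, ∀ t, (∃ s, Con L A (ap s t) x) → ∃ r ∈ R, Con L A t r := by
  by_cases a : ∃ w, true ∈ w ∧ Con L A (ap w x) x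
  · obtain ⟨w, a, b⟩ := a
    obtain ⟨u, v, rfl⟩ := List.append_of_mem a
    have : Con L A x (ap [true, true] x) := b.symm.trans ((cap b _).symm.trans (by
      simpa [ap, op] using zero (A := A) (u ++ true :: v ++ u) (by simp) (ap v x)))
    refine ⟨[x], fun t _ => ⟨x, by simp, ap_x t ▸ (cap this _).trans (.trans ?_ this.symm)⟩⟩
    simpa [ap, op] using zero (A := A) (t.2 ++ [true]) (by simp) x
  have k : ∀ t s, Con L A (ap s t) x → t = ap (.replicate t.2.length false) x ∧
      Con L A (ap (.replicate (s.length + t.2.length) false) x) x := fun t s h => by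
    have : true ∉ s ++ t.2 := fun n => a ⟨_, n, by rwa [← ap_x (ap s t)] at h⟩
    have : s ++ t.2 = .replicate (s.length + t.2.length) false :=
      List.eq_replicate_iff.2 ⟨by simp, fun b e => by cases b; rfl; exact (this e).elim⟩
    refine ⟨(ap_x t).symm.trans (congrArg (ap · x) (List.eq_replicate_iff.2 ⟨rfl, fun b e => ?_⟩)),
      by rwa [← this, ← show _ = ap s t from ap_x (ap s t)] at *⟩
    exact List.eq_of_mem_replicate (this ▸ List.mem_append_right _ e)
  by_cases b : ∃ p, 0 < p ∧ Con L A (ap (.replicate p false) x) x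
  · obtain ⟨p, b, c⟩ := b
    refine ⟨(List.range p).map fun i => ap (.replicate i false) x, fun t ⟨s, h⟩ => ?_⟩
    rw [(k t s h).1]
    induction t.2.length using Nat.strong_induction_on with
    | _ n ih =>
      by_cases e : n < p
      · exact ⟨_, List.mem_map_of_mem (List.mem_range.2 e), .refl _⟩
      · obtain ⟨r, i, j⟩ := ih (n - p) (by omega)
        exact ⟨r, i, .trans (by
          simpa [ap, ← List.append_assoc, show n - p + p = n by omega] using cap c (.replicate (n - p) false)) j⟩
  · refine ⟨[x], fun t ⟨s, h⟩ => ⟨x, by simp, ?_⟩⟩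
    have : t.2.length = 0 := by_contra fun n => b ⟨_, by omega, (k t s h).2⟩
    rw [(k t s h).1, this]
    exact .refl _

attribute [local irreducible] Primrec Computable

theorem result : ¬ ACC ∧ ¬ Complete (Isom L 1) := by
  constructor
  · obtain ⟨o, ho⟩ := rec_idx (R := fun _ => False) (re_prim (by fun_prop))
    have v : ∀ s t : T, Con L (W o) s t → val s = val t := fun s t h => by
      induction h with
      | base k => exact ((ho _).1 k).elim
      | law s k =>
        cases k
        simp only [val, inst, List.cons_append, List.foldr_cons, List.nil_append]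
        rcases List.foldr act _ (s 0).2 with _ | ⟨_, _ | _⟩ <;> rcases List.foldr act _ (s 1).2 with _ | ⟨_, _ | _⟩ <;> rfl
      | refl => rfl
      | symm _ ih => exact ih.symm
      | trans _ _ i j => exact i.trans j
      | op f _ ih => exact congrArg (act f) ih
    refine fun h => h o ⟨fun k a b => cut k (a.lift val v) = cut k (b.lift val v),
      fun k => ⟨⟨fun _ => rfl, .symm, .trans⟩, fun f s t e => ?_⟩, strictMono_nat_of_lt_succ fun k => ⟨fun a b e => ?_,
        fun e => ?_⟩⟩
    · change cut k (val s) = cut k (val t) at e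
      change cut k (act f (val s)) = cut k (act f (val t))
      generalize val s = a, val t = b at e
      rcases a with _ | ⟨i, _ | _⟩ <;> rcases b with _ | ⟨j, _ | _⟩ <;> cases f <;> simp_all [act, cut] <;>
        split_ifs at e
    · generalize a.lift val v = a, b.lift val v = b at e
      rcases a with _ | ⟨i, _ | _⟩ <;> rcases b with _ | ⟨j, _ | _⟩ <;> simp_all [cut] <;> grind
    · have : ∀ i, val (ap (.replicate i false) x) = some (i, false) := fun i => by
        induction i with
        | zero => rfl
        | succ i ih => exact congrArg (act false) ih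
      have := e (.mk _ (op true (ap (.replicate k false) x))) (.mk _ (ap [true, true] x)) (by
        change cut _ (act true (val _)) = none; simp [this, act, cut])
      change cut _ (act true (val _)) = none at this
      simp_all [act, cut]
  have rc := re_con (L := L) (X := Fin 1) (Primrec.of_eq (f := fun p => cd (p.1.2.take 2 = [false, true] ∧
    p.2.2.take 2 = [true, true])) (by fun_prop) fun p => congrArg cd (propext ⟨fun l => ⟨_, rfl, fun n =>
      if n = 0 then (p.1.1, p.1.2.drop 2) else (p.2.1, p.2.2.drop 2), by simp [inst, ← l.1, ← l.2]⟩,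
      by rintro ⟨_, rfl, s, rfl⟩; simp [inst]⟩))
  refine not_complete fun i => ?_
  obtain ⟨R, hR⟩ := reps (W i)
  have : Pi2 fun e => ∃ t ∈ R, (∃ s, Con L (W i) (ap s t) x) ∧
      ∀ p : T × T, Con L (W e) p.1 p.2 ↔ Con L (W i) (ap p.1.2 t) (ap p.2.2 t) := by
    clear hR
    induction R with
    | nil => exact (Pi2.re (re_prim (p := fun _ => False) (by fun_prop))).of_eq (by simp)
    | cons t R ih =>
      exact (((Pi2.re (re_prim (p := fun _ => ∃ s, Con L (W i) (ap s t) x) (.const _))).and (Pi2.all (Pi2.iff rc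
        (re_comp rc (g := fun z : ℕ × T × T => (i, ap z.2.1.2 t, ap z.2.2.2 t))
          (c_prim (by unfold ap; fun_prop)))))).or ih).of_eq fun _ => by rw [List.exists_mem_cons_iff]
  refine this.of_eq fun e => ⟨fun ⟨t, _, ⟨s, a⟩, b⟩ => ⟨.ofBijective (Quot.map (ap ·.2 t) fun u v k => (b (u, v)).1 k)
    ⟨?_, ?_⟩, nofun, fun f u v k => mk_eq.2 ((mk_eq.1 k).op f)⟩, fun ⟨φ, _, k⟩ => ?_⟩
  · rintro ⟨u⟩ ⟨v⟩ k
    exact mk_eq.2 ((b (u, v)).2 (mk_eq.1 k))
  · rintro ⟨u⟩
    exact ⟨.mk _ (ap u.2 (ap s x)), mk_eq.2 (by have := cap a u.2; rw [ap_x] at this; simpa [ap, x] using this)⟩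
  · obtain ⟨t, l⟩ := (φ (.mk _ x)).exists_rep
    have m : ∀ w, φ (.mk _ (ap w x)) = .mk _ (ap w t) := fun w => by
      induction w with
      | nil => exact l.symm
      | cons f w ih => exact k f _ _ ih
    obtain ⟨⟨u⟩, n⟩ := φ.surjective (.mk _ x)
    have n := mk_eq.1 ((m u.2).symm.trans (ap_x u ▸ n))
    obtain ⟨r, a, b⟩ := hR t ⟨_, n⟩
    refine ⟨r, a, ⟨_, (cap b _).symm.trans n⟩, fun p => ?_⟩
    rw [← mk_eq, ← φ.apply_eq_iff_eq, ← ap_x p.1, ← ap_x p.2, m, m, mk_eq, ap_x, ap_x]
    exact ⟨fun o => (cap b _).symm.trans (o.trans (cap b _)), fun o => (cap b _).trans (o.trans (cap b _).symm)⟩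

end Pool.Agent.Results.MP_aec1d5_lc.Yes
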